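import Pool.Agent.N179.SP.Defs

/-!
# Products with a log scheme (or another object) and independent families: definitions
-/

set_option autoImplicit false

open TensorProduct

universe u

namespace Pool.Agent.N179.LG

open Pool.Agent.TH125.Gal Pool.Agent.N179.GR.S
open Pool.Agent.H914 Pool.Agent.H914.VarClass Pool.Agent.H914.VarClass.Obj
  Pool.Agent.H914.WeilCohomology

section Alg

/-- The characters of `Γ` with values in `K`. -/
abbrev Chr (K : Type) [Field K] (Γ : Type) [Group Γ] : Type := Γ →* Kˣ

/-- The linear actions of the group `Γ` on the vector space `M`. -/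
abbrev LinAct (K : Type) [Field K] (M : Type) [AddCommGroup M] [Module K M] (Γ : Type)
    [Group Γ] : Type := Γ →* (M →ₗ[K] M)

/-- The families of subspaces of `A ⊗ M`, indexed by degrees `m` and twists `r`. -/
abbrev Subs (K : Type) [Field K] (A : Type) [Ring A] [Algebra K A] (M : Type)
    [AddCommGroup M] [Module K M] : Type := ℕ → ℤ → Submodule K (A ⊗[K] M)

variable {K : Type} [Field K] {A : Type} [Ring A] [Algebra K A] {B : Type} [Ring B]
  [Algebra K B] {M : Type} [AddCommGroup M] [Module K M] {Γ : Type} [Group Γ]

/-- The part of degree `i` of the tensor product. -/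
def tensDeg (grA : ℕ → Submodule K A) (grM : ℕ → Submodule K M) (i : ℕ) :
    Submodule K (A ⊗[K] M) :=
  Submodule.span K {c | ∃ a b, a + b = i ∧ ∃ x ∈ grA a, ∃ y ∈ grM b, c = x ⊗ₜ[K] y}

/-- The action of `g` on the tensor product. -/
noncomputable def tact (ρ : AlgActs K A Γ) (τ : LinAct K M Γ) (g : Γ) :
    A ⊗[K] M →ₗ[K] A ⊗[K] M :=
  TensorProduct.map ((show Γ →* (A ≃ₐ[K] A) from ρ) g).toLinearMap (τ g)

/-- All elements `c` of `A ⊗ M` of degree `m` such that `g c = χ(g)^r • c` for all `g` in a subgroup of
finite index are in `C m r`, for all `m`, `r` with `m = 2 r + t`. -/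
def InvIn (χ : Chr K Γ) (t : ℤ) (grA : ℕ → Submodule K A) (grM : ℕ → Submodule K M)
    (ρ : AlgActs K A Γ) (τ : LinAct K M Γ) (C : Subs K A M) : Prop :=
  ∀ (m : ℕ) (r : ℤ), (m : ℤ) = 2 * r + t → ∀ c ∈ tensDeg grA grM m,
    (∃ Δ : Subgroup Γ, Δ.FiniteIndex ∧ ∀ g ∈ Δ, tact ρ τ g c = ((χ g ^ r : Kˣ) : K) • c) →
      c ∈ C m r

/-- The pull-back by `f` maps `C m r` to `C' m r`. -/
def PullStable (f : B →ₐ[K] A) (C : Subs K B M) (C' : Subs K A M) : Prop :=
  ∀ m r, ∀ c ∈ C m r, f.toLinearMap.rTensor M c ∈ C' m r

/-- The push-forward by `q` maps `C (m + 2 d) (r + d)` to `C' m r`. -/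
def PushStable (q : A →ₗ[K] B) (d : ℕ) (C : Subs K A M) (C' : Subs K B M) : Prop :=
  ∀ m r, ∀ c ∈ C (m + 2 * d) (r + d), q.rTensor M c ∈ C' m r

/-- The products of elements of `S i` and of `C m r` are in `C (m + 2 i) (r + i)`. -/
def MulStable (S : ℕ → Set A) (C : Subs K A M) : Prop :=
  ∀ i m r, ∀ a ∈ S i, ∀ c ∈ C m r, (LinearMap.mulLeft K a).rTensor M c ∈ C (m + 2 * i) (r + i)

/-- Every semi-invariant element is a linear combination of elements of the sets `S j`. -/
def SemiIn [FiniteDimensional K A] (S : ℕ → Set A) (ρ : Γ →* (A ≃ₐ[K] A)) : Prop :=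
  ∀ z ∈ semis ρ, z ∈ Submodule.span K (⋃ j, S j)

/-- An element of one of the sets `S i` is zero if the traces of its products with the elements of all
the sets `S j` are zero. -/
def NondegOn (S : ℕ → Set A) (tr : A →ₗ[K] K) : Prop :=
  ∀ i, ∀ a ∈ S i, (∀ j, ∀ b ∈ S j, tr (a * b) = 0) → a = 0

/-- The representation given by a linear action. -/
def linRep [FiniteDimensional K M] (τ : LinAct K M Γ) : GRep K Γ where
  V := M
  act := τ
  one := fun x => by rw [map_one]; rfl
  mul := fun g h x => by rw [map_mul]; rfl

end Alg

variable {k : Type u} [Field k] {𝒱 : VarClass k} {ops : CycleOps 𝒱}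

/-- The cohomology `M` of a log scheme `X` (or of another object), with its grading and an action of
the group `Γ`, and, for all smooth projective varieties `V` in `𝒱`, subspaces `real V m r` of the part
of degree `m` of `H(V) ⊗ M = H(V × X)` (the classes in `H^m(V × X)` with the twist `r` which come from
cycles or `K`-theory), compatible with pull-back by morphisms of the projective variety `V`, with the
product with the classes of cycles on `V`, and with push-forward along the projections
`V × V' × X ⟶ V' × X`. -/
structure LogVar (W : WeilCohomology.{u, 0} ops) (Γ : Type) [Group Γ] where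
  /-- the cohomology of `X` -/
  M : Type
  [grp : AddCommGroup M]
  [mod : Module W.K M]
  [fin : Module.Finite W.K M]
  /-- the grading -/
  gr : ℕ → Submodule W.K M
  /-- the action -/
  act : LinAct W.K M Γ
  /-- the classes on `V × X` of degree `m` and twist `r` which come from cycles or `K`-theory -/
  real : ∀ V : 𝒱.Obj, Subs W.K (W.H V) M
  pull : ∀ {V V' : 𝒱.Obj} (f : V ⟶ V'), PullStable (W.map f) (real V') (real V)
  mul : ∀ V : 𝒱.Obj, MulStable (algClasses W V) (real V)
  push : ∀ V V' : 𝒱.Obj, PushStable (W.push (snd V V')) V.dim (real (V.prod V')) (real V')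

attribute [instance] LogVar.grp LogVar.mod LogVar.fin

variable {W : WeilCohomology.{u, 0} ops} {Γ : Type} [Group Γ]

/-- The representation on the cohomology of `X`. -/
def LogVar.rep (X : LogVar W Γ) : GRep W.K Γ := linRep X.act

/-- The log Tate conjecture for `V × X` in the degrees `m` and twists `r` with `m = 2 r + t`: all classes
in `H^m(V × X)` which are multiplied by `χ(g)^r` by all `g` in a subgroup of finite index are in
`real V m r`. -/
def LogTate (χ : Chr W.K Γ) (t : ℤ) (V : GVar W Γ) (X : LogVar W Γ) : Prop :=
  InvIn χ t (W.gr V.X) X.gr V.act X.act (X.real V.X)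

/-- The factor `P`: `Γ` acts on its cohomology like a Galois group, its semi-invariant classes are
combinations of classes of cycles, the class of a cycle is zero if all its intersection numbers
with cycles are zero, and there is a zero-cycle of degree different from `0`. -/
structure LogFactor (χ : Chr W.K Γ) (P : GVar W Γ) : Prop where
  galois : IsGaloisAct χ (W.gr P.X) P.X.dim (W.tr P.X) (algClasses W P.X) P.act
  semi : SemiIn (algClasses W P.X) P.act
  num : NondegOn (algClasses W P.X) (W.tr P.X)
  point : HasPoint P

/-- The log Tate conjecture in the degrees `m = 2 r + t` for `Y × X`, where `Y` is a tower over `Z`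
with factors without indices in `E`, is equivalent to the same conjecture for `Z × X`. -/
def LogOutside (χ : Chr W.K Γ) (t : ℤ) {ι : Type} (V : ι → GRep W.K Γ) (Z : GVar W Γ)
    (X : LogVar W Γ) (E : Set ι) : Prop :=
  ∀ (L : List (ι × GVar W Γ)) (Y : GVar W Γ), Tower V Z L Y →
    (∀ x ∈ L, x.1 ∉ E ∧ LogFactor χ x.2) → (LogTate χ t Y X ↔ LogTate χ t Z X)

/-- The set `E` of exceptional indices with respect to `U` is finite, and the number of its elements
is at most `d - d'`, where `d` is the dimension of `U` and `d'` is the dimension of the span of the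
semi-invariant vectors; it is at most `(d - d') / 2` if `U` carries a nondegenerate form which is
invariant up to a character. -/
structure Bounded {ι : Type} {K : Type} [Field K] {Γ : Type} [Group Γ] (U : GRep K Γ)
    (E : Set ι) : Prop where
  finite : E.Finite
  card : E.ncard + (semiSpan U).dim ≤ dim U
  form : (∃ B : Form U, InvForm B) → 2 * E.ncard + (semiSpan U).dim ≤ dim U

/-- `E U` is the set of the exceptional indices with respect to the representation `U`: it is finite with
the bounds `Bounded`; no `j ≠ i` is exceptional with respect to `V i`; no `i` is exceptional with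
respect to `U` if `V i` is separated from `U` by elements of the group; and if the
cohomology of `Z` is generated by finitely many representations `U a` (for instance by its own
cohomology, or by the empty set of representations if `Z` is a point), then `LogOutside` is true for
`Z`, `X`, the union of the sets `E (U a)` and `E (H(X))`, and all `t` in `R`. -/
structure LogSplitting (χ : Chr W.K Γ) (R : Set ℤ) {ι : Type} (V : ι → GRep W.K Γ)
    (E : GRep W.K Γ → Set ι) : Prop where
  bounded : ∀ U, Bounded U (E U)
  self : ∀ i, E (V i) ⊆ {i}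
  separated : ∀ i U, SP.SeparatedByElements (V i) U → i ∉ E U
  outside : ∀ (m : ℕ) (U : Fin m → GRep W.K Γ) (Z : GVar W Γ) (X : LogVar W Γ),
    GeneratedBy U Z → ∀ t ∈ R, LogOutside χ t V Z X ((⋃ a, E (U a)) ∪ E X.rep)

end Pool.Agent.N179.LG
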