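import Pool.Agent.N179.LG.Defs
import Pool.Agent.N179.SP.Fin
import Pool.Agent.N179.FO.Fin

/-!
# Products with a log scheme (or another object) and independent families: the slices
-/

set_option autoImplicit false
set_option linter.unusedSectionVars false

open CategoryTheory AlgebraicGeometry
open scoped TensorProduct

universe u

namespace Pool.Agent.N179.LG

open Module Pool.Agent.TH125.Gal Pool.Agent.N179.GR Pool.Agent.N179.GR.S

open Pool.Agent.H914 Pool.Agent.H914.VarClass Pool.Agent.H914.VarClass.Obj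
  Pool.Agent.H914.WeilCohomology Pool.Agent.W552 Pool.Agent.H281R3.HT

variable {k : Type u} [Field k] {𝒱 : VarClass k} {ops : CycleOps 𝒱}
  {W : WeilCohomology.{u, 0} ops} {Γ : Type} [Group Γ]

section lin

variable {M : Type} [AddCommGroup M] [Module W.K M]

/-- the action on `H(V) ⊗ M` -/
noncomputable def sigM (V : GVar W Γ) (τ : Γ →* (M →ₗ[W.K] M)) :
    Γ →* Module.End W.K (W.H V.X ⊗[W.K] M) where
  toFun g := TensorProduct.map (V.act g).toLinearMap (τ g)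
  map_one' := by
    refine TensorProduct.ext' fun a m => ?_
    rw [TensorProduct.map_tmul, map_one, map_one]
    rfl
  map_mul' g h := by
    refine TensorProduct.ext' fun a m => ?_
    rw [TensorProduct.map_tmul, map_mul, map_mul]
    rfl

theorem sigM_tmul (V : GVar W Γ) (τ : Γ →* (M →ₗ[W.K] M)) (g : Γ) (a : W.H V.X) (m : M) :
    sigM V τ g (a ⊗ₜ m) = (V.act g a) ⊗ₜ (τ g m) := rfl

/-- the bilinear map `H(P) × (H(Y) ⊗ M) → H(P × Y) ⊗ M` -/
noncomputable def hmap (W : WeilCohomology.{u, 0} ops) (P Y : 𝒱.Obj) (M : Type) [AddCommGroup M]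
    [Module W.K M] : W.H P →ₗ[W.K] W.H Y ⊗[W.K] M →ₗ[W.K] W.H (P.prod Y) ⊗[W.K] M where
  toFun a := (LinearMap.mulLeft W.K (W.map (fst P Y) a)).rTensor M ∘ₗ
    (W.map (snd P Y)).toLinearMap.rTensor M
  map_add' a b := by
    refine TensorProduct.ext' fun y m => ?_
    simp [add_mul, TensorProduct.add_tmul]
  map_smul' c a := by
    refine TensorProduct.ext' fun y m => ?_
    simp [TensorProduct.smul_tmul']

theorem hmap_tmul {P Y : 𝒱.Obj} (a : W.H P) (y : W.H Y) (m : M) : hmap W P Y M a (y ⊗ₜ m) =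
      (W.map (fst P Y) a * W.map (snd P Y) y) ⊗ₜ m := rfl

theorem theta_hmap {P Y : 𝒱.Obj} (a : W.H P) (n : W.H Y ⊗[W.K] M) :
    FO.theta W P Y M (hmap W P Y M a n) = a ⊗ₜ n := by
  induction n using TensorProduct.induction_on with
  | zero => simp
  | tmul y m => rw [hmap_tmul, FO.theta_tmul]
  | add x y hx hy => rw [map_add, map_add, hx, hy, TensorProduct.tmul_add]

variable {P Y : GVar W Γ} {υ : Γ →* (W.H (P.X.prod Y.X) ≃ₐ[W.K] W.H (P.X.prod Y.X))}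
  {τ : Γ →* (M →ₗ[W.K] M)}

theorem hmap_act (h1 : Intertwines (W.map (fst P.X Y.X)) P.act υ)
    (h2 : Intertwines (W.map (snd P.X Y.X)) Y.act υ) (g : Γ) (a : W.H P.X)
    (n : W.H Y.X ⊗[W.K] M) :
    hmap W P.X Y.X M (P.act g a) (sigM Y τ g n) =
      sigM (⟨P.X.prod Y.X, υ⟩ : GVar W Γ) τ g (hmap W P.X Y.X M a n) := by
  induction n using TensorProduct.induction_on with
  | zero => rw [map_zero, map_zero, map_zero]; exact (map_zero _).symm
  | tmul y m =>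
    rw [sigM_tmul, hmap_tmul, hmap_tmul]
    change _ = (υ g (W.map (fst P.X Y.X) a * W.map (snd P.X Y.X) y)) ⊗ₜ[W.K] (τ g m)
    rw [map_mul, h1 g, h2 g]
  | add x y hx hy => rw [map_add, map_add, map_add, hx, hy]; exact (map_add _ _ _).symm

/-- the slices of the values of compatible operators -/
theorem slice_lin {P Y : 𝒱.Obj} {θP : W.H P →ₗ[W.K] W.H P}
    {θC : W.H (P.prod Y) ⊗[W.K] M →ₗ[W.K] W.H (P.prod Y) ⊗[W.K] M}
    (h : ∀ a n, hmap W P Y M (θP a) n = θC (hmap W P Y M a n))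
    (ψ : Module.Dual W.K (W.H Y ⊗[W.K] M)) (z : W.H (P.prod Y) ⊗[W.K] M) :
    FO.ctrN ψ (FO.theta W P Y M (θC z)) = θP (FO.ctrN ψ (FO.theta W P Y M z)) := by
  have key : (FO.ctrN ψ ∘ₗ FO.theta W P Y M) ∘ₗ θC = θP ∘ₗ (FO.ctrN ψ ∘ₗ FO.theta W P Y M) := by
    refine FO.lin_ext fun a y m => ?_
    change FO.ctrN ψ (FO.theta W P Y M (θC (hmap W P Y M a (y ⊗ₜ m)))) =
      θP (FO.ctrN ψ (FO.theta W P Y M (hmap W P Y M a (y ⊗ₜ m))))
    rw [← h, theta_hmap, theta_hmap, FO.ctrN_tmul, FO.ctrN_tmul, map_smul]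
  exact LinearMap.congr_fun key z

variable [Module.Finite W.K M]

/-- the slices of the value of a derivation which kills the second factor -/
theorem slice_Θ (h1 : Intertwines (W.map (fst P.X Y.X)) P.act υ)
    (h2 : Intertwines (W.map (snd P.X Y.X)) Y.act υ) {D : Der W.K Γ}
    (hD : D.Θ (full (W.H Y.X ⊗[W.K] M) (sigM Y τ)) = 0)
    (ψ : Module.Dual W.K (W.H Y.X ⊗[W.K] M)) (z : W.H (P.X.prod Y.X) ⊗[W.K] M) :
    FO.ctrN ψ (FO.theta W P.X Y.X M (D.Θ (full (W.H (P.X.prod Y.X) ⊗[W.K] M)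
      (sigM (⟨P.X.prod Y.X, υ⟩ : GVar W Γ) τ)) z)) =
      D.Θ (full (W.H P.X) (algR P.act)) (FO.ctrN ψ (FO.theta W P.X Y.X M z)) := by
  refine slice_lin (θP := D.Θ (full (W.H P.X) (algR P.act))) (θC := D.Θ (full
    (W.H (P.X.prod Y.X) ⊗[W.K] M) (sigM (⟨P.X.prod Y.X, υ⟩ : GVar W Γ) τ)))
    (fun a n => ?_) ψ z
  have e1 := D.bil (full (W.H P.X) (algR P.act)) (full (W.H Y.X ⊗[W.K] M) (sigM Y τ))
    (full (W.H (P.X.prod Y.X) ⊗[W.K] M) (sigM (⟨P.X.prod Y.X, υ⟩ : GVar W Γ) τ))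
    (hmap W P.X Y.X M) ⟨⊤, inferInstance, fun g _ a n => hmap_act h1 h2 g a n⟩ a n
  have e2 : D.Θ (full (W.H Y.X ⊗[W.K] M) (sigM Y τ)) n = (0 : W.H Y.X ⊗[W.K] M) :=
    LinearMap.congr_fun hD n
  have e3 : hmap W P.X Y.X M a (D.Θ (full (W.H Y.X ⊗[W.K] M) (sigM Y τ)) n) = 0 :=
    (congrArg (hmap W P.X Y.X M a) e2).trans (map_zero _)
  exact (add_zero _).symm.trans ((congrArg (fun t : W.H (P.X.prod Y.X) ⊗[W.K] M =>
    hmap W P.X Y.X M (D.Θ (full (W.H P.X) (algR P.act)) a) n + t) e3.symm).trans e1)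

/-- **The slices of the semi-invariant classes.** -/
theorem slice_memL {V : Type} [AddCommGroup V] [Module W.K V] [FiniteDimensional W.K V]
    {r : Γ →* Module.End W.K V} (h1 : Intertwines (W.map (fst P.X Y.X)) P.act υ)
    (h2 : Intertwines (W.map (snd P.X Y.X)) Y.act υ)
    (hgen : Gen (fun _ : Unit => full V r) P.act)
    (hspl : Spl (full V r) {full (W.H Y.X ⊗[W.K] M) (sigM Y τ)}) :
    ∃ k, ∀ z : W.H (P.X.prod Y.X) ⊗[W.K] M,
      (full (W.H (P.X.prod Y.X) ⊗[W.K] M) (sigM (⟨P.X.prod Y.X, υ⟩ : GVar W Γ) τ)).Eig z →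
      ∀ ψ : Module.Dual W.K (W.H Y.X ⊗[W.K] M),
        FO.ctrN ψ (FO.theta W P.X Y.X M z) ∈ inv k P.act := by
  obtain ⟨k₀, hk₀⟩ := exists_stable (full V r) (∅ : Set (PRep W.K Γ))
  refine ⟨k₀ + 1, fun z hz ψ D hD => ?_⟩
  have hx : D.Θ (full V r) ∈ core (full V r) := by
    have e1 : D.Θ (full V r) ∈ ak (k₀ + 1) (full V r) ∅ := ⟨D, hD, by simp, rfl⟩
    rw [hk₀ _ (Nat.le_succ _)] at e1
    exact e1
  obtain ⟨D', hD', hDY, hDV⟩ := mem_aI.1 (hspl hx) 1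
  have h3 : D.Θ (full (W.H P.X) (algR P.act)) = D'.Θ (full (W.H P.X) (algR P.act)) :=
    hgen.eq_of (k := 0) (hD.mono' (by omega)) hD' fun _ => hDV.symm
  have h4 : D'.Θ (full (W.H (P.X.prod Y.X) ⊗[W.K] M) (sigM (⟨P.X.prod Y.X, υ⟩ : GVar W Γ) τ)) z =
      (0 : W.H (P.X.prod Y.X) ⊗[W.K] M) := hD'.kill hz
  rw [h3]
  refine (slice_Θ h1 h2 (hDY _ rfl) ψ z).symm.trans ?_
  refine (congrArg (fun t : W.H (P.X.prod Y.X) ⊗[W.K] M =>
    FO.ctrN ψ (FO.theta W P.X Y.X M t)) h4).trans ?_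
  rw [map_zero, map_zero]

/-- derivations which kill `H(Y)` and `H(X)` kill the tensor product -/
theorem kill_tens {D : Der W.K Γ} (h1 : D.Θ (full (W.H Y.X) (algR Y.act)) = 0)
    (h2 : D.Θ (full M τ) = 0) : D.Θ (full (W.H Y.X ⊗[W.K] M) (sigM Y τ)) = 0 := by
  have key : (show W.H Y.X ⊗[W.K] M →ₗ[W.K] W.H Y.X ⊗[W.K] M from
      D.Θ (full (W.H Y.X ⊗[W.K] M) (sigM Y τ))) = 0 := by
    refine TensorProduct.ext' fun y m => ?_
    have e1 := D.bil (full (W.H Y.X) (algR Y.act)) (full M τ)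
      (full (W.H Y.X ⊗[W.K] M) (sigM Y τ)) (TensorProduct.mk W.K (W.H Y.X) M)
      ⟨⊤, inferInstance, fun g _ y m => rfl⟩ y m
    have e2 : D.Θ (full (W.H Y.X) (algR Y.act)) y = (0 : W.H Y.X) := LinearMap.congr_fun h1 y
    have e3 : D.Θ (full M τ) m = (0 : M) := LinearMap.congr_fun h2 m
    refine e1.symm.trans ?_
    have e4 : (D.Θ (full (W.H Y.X) (algR Y.act)) y : W.H Y.X) ⊗ₜ[W.K] m +
        y ⊗ₜ[W.K] (D.Θ (full M τ) m : M) = 0 := by
      rw [e2, e3, TensorProduct.zero_tmul, TensorProduct.tmul_zero, add_zero]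
    exact e4
  exact key

end lin

section tower

variable {M : Type} [AddCommGroup M] [Module W.K M] [Module.Finite W.K M]
  {τ : Γ →* (M →ₗ[W.K] M)}
  {ι : Type} {V : ι → GRep W.K Γ} {Z : GVar W Γ} {L : List (ι × GVar W Γ)} {Y : GVar W Γ}

theorem tower_splL {m : ℕ} {U : Fin m → GRep W.K Γ} (hZ : GeneratedBy U Z)
    (hY : S.Tower V Z L Y) {i : ι} (hi : ∀ a, Spl (fl (V i)) {fl (U a)})
    (hX : Spl (fl (V i)) {full M τ})
    (hL : ∀ x ∈ L, Spl (fl (V i)) {fl (V x.1)}) :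
    Spl (fl (V i)) {full (W.H Y.X ⊗[W.K] M) (sigM Y τ)} := by
  classical
  have h1 : Spl (fl (V i)) (⋃ a ∈ (Finset.univ : Finset (Fin m)), {fl (U a)}) :=
    Spl.iUnion Finset.univ (fun a => {fl (U a)}) fun a _ => hi a
  have h2 : Spl (fl (V i)) (⋃ j ∈ (L.map Prod.fst).toFinset, {fl (V j)}) :=
    Spl.iUnion _ (fun j => {fl (V j)}) fun j hj => by
      obtain ⟨x, hx, rfl⟩ := List.mem_map.1 (List.mem_toFinset.1 hj)
      exact hL x hx
  refine ((h1.union h2).union hX).detect1 fun D hD h0 N hN => ?_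
  rw [Set.mem_singleton_iff.1 hN]
  refine kill_tens (tower_kill hZ hY hD (fun a => h0 _ (Or.inl (Or.inl ?_)))
    fun x hx => h0 _ (Or.inl (Or.inr ?_))) (h0 _ (Or.inr rfl))
  · exact Set.mem_iUnion₂.2 ⟨a, Finset.mem_univ a, rfl⟩
  · exact Set.mem_iUnion₂.2 ⟨x.1, List.mem_toFinset.2 (List.mem_map.2 ⟨x, hx, rfl⟩), rfl⟩

/-- the slices of semi-invariant classes are combinations of semi-invariant classes -/
theorem slicesL [IsAlgClosed W.K] {m : ℕ} {U : Fin m → GRep W.K Γ}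
    (hZ : GeneratedBy U Z) (hY : S.Tower V Z L Y) {i : ι} (hi : ∀ a, Spl (fl (V i)) {fl (U a)})
    (hX : Spl (fl (V i)) {full M τ})
    (hL : ∀ x ∈ L, Spl (fl (V i)) {fl (V x.1)}) {P : GVar W Γ}
    {υ : Γ →* (W.H (P.X.prod Y.X) ≃ₐ[W.K] W.H (P.X.prod Y.X))}
    (hP : OfType (V i) P) (h1 : Intertwines (W.map (fst P.X Y.X)) P.act υ)
    (h2 : Intertwines (W.map (snd P.X Y.X)) Y.act υ) {z : W.H (P.X.prod Y.X) ⊗[W.K] M}
    (hz : (full (W.H (P.X.prod Y.X) ⊗[W.K] M) (sigM (⟨P.X.prod Y.X, υ⟩ : GVar W Γ) τ)).Eig z)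
    (ψ : Module.Dual W.K (W.H Y.X ⊗[W.K] M)) :
    FO.ctrN ψ (FO.theta W P.X Y.X M z) ∈
      Submodule.span W.K {y | (full (W.H P.X) (algR P.act)).Eig y} := by
  obtain ⟨k, hk⟩ := slice_memL h1 h2 (gen_of hP.1) (tower_splL hZ hY hi hX hL)
  exact inv_le (semiS_coh hP.2) k (hk z hz ψ)

end tower

end Pool.Agent.N179.LG
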