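import Pool.Agent.N179.LG.Eng

/-!
# Products with a log scheme (or another object) and independent families: the theorem
-/

set_option autoImplicit false
set_option linter.unusedSectionVars false

open CategoryTheory AlgebraicGeometry
open scoped TensorProduct

universe u

namespace Pool.Agent.N179.LG

open Module Pool.Agent.TH125.Gal Pool.Agent.N179.GR Pool.Agent.N179.GR.S

open Pool.Agent.H914 Pool.Agent.H914.VarClass Pool.Agent.H914.VarClass.Obj
  Pool.Agent.H914.WeilCohomology Pool.Agent.W552 Pool.Agent.H281R3.HT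

variable {k : Type u} [Field k] {𝒱 : VarClass k} {ops : CycleOps 𝒱}
  {W : WeilCohomology.{u, 0} ops} {Γ : Type} [Group Γ]

section coord

variable {M : Type} [AddCommGroup M] [Module W.K M] {P Y : GVar W Γ} {χ : Γ →* W.Kˣ}
  {υ : Γ →* (W.H (P.X.prod Y.X) ≃ₐ[W.K] W.H (P.X.prod Y.X))}
  {τ : Γ →* (M →ₗ[W.K] M)}

theorem KM_inrL (s : SB W P.X) (i : Fin s.NT) {c : W.H (P.X.prod Y.X) ⊗[W.K] M}
    (hc : ∀ ψ : Module.Dual W.K (W.H Y.X ⊗[W.K] M),
      FO.ctrN ψ (FO.theta W P.X Y.X M c) ∈ algSpan W P.X) :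
    FO.KM s Y.X M (Sum.inr i) c = 0 := by
  refine (Module.forall_dual_apply_eq_zero_iff W.K _).1 fun ψ => ?_
  rw [FO.dual_KM, FG.coord_inr s (hc ψ)]

theorem KM_actL (hG : IsGalois W χ P.X P.act) (h1 : Intertwines (W.map (fst P.X Y.X)) P.act υ)
    (h2 : Intertwines (W.map (snd P.X Y.X)) Y.act υ) (s : SB W P.X) (l : Fin s.NC) {g : Γ}
    (hg : ∀ i, P.act g (s.bC i) = (χ g : W.K) ^ s.jC i • (s.bC i : W.H P.X))
    (c : W.H (P.X.prod Y.X) ⊗[W.K] M) :
    FO.KM s Y.X M (Sum.inl l) (sigM (⟨P.X.prod Y.X, υ⟩ : GVar W Γ) τ g c) =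
      (χ g : W.K) ^ s.jC l • sigM Y τ g (FO.KM s Y.X M (Sum.inl l) c) := by
  have h3 : ∀ a, s.e.coord (Sum.inl l) (P.act g a) =
      (χ g : W.K) ^ s.jC l * s.e.coord (Sum.inl l) a := by
    intro a
    have h4 := bil_act hG g (s.uC l) a
    rw [uC_act hG s hg, map_smul, LinearMap.smul_apply, smul_eq_mul] at h4
    rw [FO.coord_bil, FO.coord_bil]
    have h5 : (χ g : W.K) ^ P.X.dim = (χ g : W.K) ^ (P.X.dim - s.jC l) * (χ g : W.K) ^ s.jC l := by
      rw [← pow_add, Nat.sub_add_cancel (jC_le s l)]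
    rw [h5, mul_assoc] at h4
    exact mul_left_cancel₀ (pow_ne_zero _ (Units.ne_zero _)) h4
  have h6 : FO.KM s Y.X M (Sum.inl l) ∘ₗ
      (show W.H (P.X.prod Y.X) ⊗[W.K] M →ₗ[W.K] W.H (P.X.prod Y.X) ⊗[W.K] M from
        sigM (⟨P.X.prod Y.X, υ⟩ : GVar W Γ) τ g) =
      ((χ g : W.K) ^ s.jC l • (show W.H Y.X ⊗[W.K] M →ₗ[W.K] W.H Y.X ⊗[W.K] M from
        sigM Y τ g)) ∘ₗ FO.KM s Y.X M (Sum.inl l) := by
    refine FO.lin_ext fun a y m => ?_
    change FO.KM s Y.X M (Sum.inl l) (υ g (W.map (fst P.X Y.X) a * W.map (snd P.X Y.X) y) ⊗ₜ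
      τ g m) = (χ g : W.K) ^ s.jC l • sigM Y τ g (FO.KM s Y.X M (Sum.inl l)
        ((W.map (fst P.X Y.X) a * W.map (snd P.X Y.X) y) ⊗ₜ m))
    rw [map_mul, h1 g, h2 g, FO.KM_tmul, FO.KM_tmul, h3, map_smul, sigM_tmul, smul_smul]
  exact LinearMap.congr_fun h6 c

theorem push_mul_sndL (a : W.H P.X) (c : W.H Y.X ⊗[W.K] M) :
    (W.push (snd P.X Y.X)).rTensor M ((LinearMap.mulLeft W.K (W.map (fst P.X Y.X) a)).rTensor
      M ((W.map (snd P.X Y.X)).toLinearMap.rTensor M c)) = W.tr P.X a • c := by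
  induction c using TensorProduct.induction_on with
  | zero => simp
  | tmul y m =>
    rw [LinearMap.rTensor_tmul, LinearMap.rTensor_tmul, LinearMap.rTensor_tmul]
    change W.push (snd P.X Y.X) (W.map (fst P.X Y.X) a * W.map (snd P.X Y.X) y) ⊗ₜ m = _
    rw [W.push_snd, TensorProduct.smul_tmul']
  | add x y hx hy => rw [map_add, map_add, map_add, hx, hy, smul_add]

theorem snd_actL (h2 : Intertwines (W.map (snd P.X Y.X)) Y.act υ) (g : Γ)
    (c : W.H Y.X ⊗[W.K] M) :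
    sigM (⟨P.X.prod Y.X, υ⟩ : GVar W Γ) τ g ((W.map (snd P.X Y.X)).toLinearMap.rTensor M c) =
      (W.map (snd P.X Y.X)).toLinearMap.rTensor M (sigM Y τ g c) := by
  have h3 : (show W.H (P.X.prod Y.X) ⊗[W.K] M →ₗ[W.K] W.H (P.X.prod Y.X) ⊗[W.K] M from
      sigM (⟨P.X.prod Y.X, υ⟩ : GVar W Γ) τ g) ∘ₗ
        (W.map (snd P.X Y.X)).toLinearMap.rTensor M =
      (W.map (snd P.X Y.X)).toLinearMap.rTensor M ∘ₗ
        (show W.H Y.X ⊗[W.K] M →ₗ[W.K] W.H Y.X ⊗[W.K] M from sigM Y τ g) := by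
    refine TensorProduct.ext' fun y m => ?_
    change (υ g (W.map (snd P.X Y.X) y)) ⊗ₜ[W.K] (τ g m) =
      (W.map (snd P.X Y.X) (Y.act g y)) ⊗ₜ[W.K] (τ g m)
    rw [h2 g]
  exact LinearMap.congr_fun h3 c

end coord

section step

variable {X : LogVar W Γ} {P Y : GVar W Γ} {χ : Γ →* W.Kˣ} {t : ℤ}
  {υ : Γ →* (W.H (P.X.prod Y.X) ≃ₐ[W.K] W.H (P.X.prod Y.X))}

theorem mul_spanL {V : 𝒱.Obj} {i m : ℕ} {r : ℤ} {a : W.H V}
    (ha : a ∈ Submodule.span W.K (algClasses W V i)) {c : W.H V ⊗[W.K] X.M}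
    (hc : c ∈ X.real V m r) :
    (LinearMap.mulLeft W.K a).rTensor X.M c ∈ X.real V (m + 2 * i) (r + i) := by
  induction ha using Submodule.span_induction with
  | mem a ha => exact X.mul V i m r a ha c hc
  | zero =>
    have h1 : LinearMap.mulLeft W.K (0 : W.H V) = 0 := by
      apply LinearMap.ext
      intro x
      simp
    rw [h1, LinearMap.rTensor_zero]
    exact Submodule.zero_mem _
  | add x y _ _ hx hy =>
    have h1 : LinearMap.mulLeft W.K (x + y) = LinearMap.mulLeft W.K x + LinearMap.mulLeft W.K y := by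
      apply LinearMap.ext
      intro z
      simp [add_mul]
    rw [h1, LinearMap.rTensor_add]
    exact Submodule.add_mem _ hx hy
  | smul q x _ hx =>
    have h1 : LinearMap.mulLeft W.K (q • x) = q • LinearMap.mulLeft W.K x := by
      apply LinearMap.ext
      intro z
      simp
    rw [h1, LinearMap.rTensor_smul]
    exact Submodule.smul_mem _ _ hx

theorem homEqNum_of {X : 𝒱.Obj} (h : NondegOn (algClasses W X) (W.tr X)) : HomEqNum W X := by
  intro j hj z hz h0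
  refine h j _ ⟨z, hz, rfl⟩ fun i b hb => ?_
  obtain ⟨w, hw, rfl⟩ := hb
  by_cases hij : j + i = X.dim
  · have h1 : X.IsCyc (X.dim - j) w := by rwa [show X.dim - j = i by omega]
    have h2 : X.IsCyc X.dim (ops.mul z w) := hij ▸ ops.mul_mem hz hw
    rw [← W.cl_mul, W.tr_cl h2, h0 w h1, Rat.cast_zero]
  · exact W.tr_eq_zero (W.mul_mem (alg_gr ⟨z, hz, rfl⟩) (alg_gr ⟨w, hw, rfl⟩)) (by omega)

/-- **One step.** -/
theorem stepL (hG : IsGalois W χ P.X P.act) (hDX : HomEqNum W P.X)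
    (h1 : Intertwines (W.map (fst P.X Y.X)) P.act υ)
    (h2 : Intertwines (W.map (snd P.X Y.X)) Y.act υ)
    (hs : ∀ z : W.H (P.X.prod Y.X) ⊗[W.K] X.M, (∃ Δ : Subgroup Γ, Δ.FiniteIndex ∧ ∀ g ∈ Δ,
      ∃ q : W.K, sigM (⟨P.X.prod Y.X, υ⟩ : GVar W Γ) X.act g z = q • z) →
      ∀ ψ : Module.Dual W.K (W.H Y.X ⊗[W.K] X.M),
        FO.ctrN ψ (FO.theta W P.X Y.X X.M z) ∈ algSpan W P.X)
    (hT : LogTate χ t Y X) : LogTate χ t (⟨P.X.prod Y.X, υ⟩ : GVar W Γ) X := by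
  obtain ⟨s⟩ := exists_SB hDX
  obtain ⟨Δ', hΔ', hfix⟩ := exists_fix hG s
  rintro m r hmr c hcm ⟨Δ, hΔ, hc⟩
  have hc' : ∀ g ∈ Δ, sigM (⟨P.X.prod Y.X, υ⟩ : GVar W Γ) X.act g c =
      ((χ g ^ r : W.Kˣ) : W.K) • c := hc
  have hK := hs c ⟨Δ, hΔ, fun g hg => ⟨_, hc' g hg⟩⟩
  change c ∈ X.real (P.X.prod Y.X) m r
  rw [FO.expandM s c, Fintype.sum_sum_type]
  refine Submodule.add_mem _ (Submodule.sum_mem _ fun l _ => ?_)
    (Submodule.sum_mem _ fun i _ => ?_)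
  swap
  · rw [KM_inrL s i hK, map_zero, map_zero]
    exact Submodule.zero_mem _
  have hdeg := FO.KM_deg (M := X.M) s l (show c ∈ FO.tensDeg (W.gr (P.X.prod Y.X)) X.gr m from hcm)
  by_cases hl : 2 * s.jC l ≤ m
  · rw [if_pos hl] at hdeg
    have hx : FO.KM s Y.X X.M (Sum.inl l) c ∈ X.real Y.X (m - 2 * s.jC l) (r - s.jC l) := by
      refine hT _ _ (by rw [Nat.cast_sub hl, hmr]; push_cast; ring) _ hdeg
        ⟨Δ ⊓ Δ', inferInstance, fun g hg => ?_⟩
      have h3 := congrArg (FO.KM s Y.X X.M (Sum.inl l)) (hc' g hg.1)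
      rw [map_smul, KM_actL hG h1 h2 s l (hfix g hg.2)] at h3
      have h4 : ((χ g ^ r : W.Kˣ) : W.K) =
          (χ g : W.K) ^ s.jC l * ((χ g ^ (r - s.jC l : ℤ) : W.Kˣ) : W.K) := by
        rw [← Units.val_pow_eq_pow_val, ← Units.val_mul, ← zpow_natCast, ← zpow_add]
        congr 2
        ring
      rw [h4, mul_smul] at h3
      exact smul_right_injective _ (pow_ne_zero _ (Units.ne_zero (χ g))) h3
    have h5 := mul_spanL (X := X) (FO.map_span (fst P.X Y.X) (Submodule.subset_span (s.alg l)))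
      (X.pull (snd P.X Y.X) _ _ _ hx)
    rw [Nat.sub_add_cancel hl, sub_add_cancel] at h5
    rw [s.e_inl]
    exact h5
  · rw [if_neg hl, Submodule.mem_bot] at hdeg
    rw [hdeg, map_zero, map_zero]
    exact Submodule.zero_mem _

/-- The converse. -/
theorem convL (h2 : Intertwines (W.map (snd P.X Y.X)) Y.act υ) (hpt : HasPoint P)
    (hT : LogTate χ t (⟨P.X.prod Y.X, υ⟩ : GVar W Γ) X) : LogTate χ t Y X := by
  rintro m r hmr c hcm ⟨Δ, hΔ, hc⟩
  have hc' : ∀ g ∈ Δ, sigM Y X.act g c = ((χ g ^ r : W.Kˣ) : W.K) • c := hc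
  have h3 : (W.map (snd P.X Y.X)).toLinearMap.rTensor X.M c ∈
      tensDeg (W.gr (P.X.prod Y.X)) X.gr m := by
    clear hc hc'
    induction hcm using Submodule.span_induction with
    | mem c hc =>
      obtain ⟨a, b, hab, x, hx, y, hy, rfl⟩ := hc
      rw [LinearMap.rTensor_tmul]
      exact Submodule.subset_span ⟨a, b, hab, _, W.map_mem _ hx, y, hy, rfl⟩
    | zero => rw [map_zero]; exact Submodule.zero_mem _
    | add x y _ _ hx hy => rw [map_add]; exact Submodule.add_mem _ hx hy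
    | smul q x _ hx => rw [map_smul]; exact Submodule.smul_mem _ _ hx
  have h4 := hT m r hmr _ h3 ⟨Δ, hΔ, fun g hg => by
    change sigM (⟨P.X.prod Y.X, υ⟩ : GVar W Γ) X.act g _ = _
    rw [snd_actL h2, hc' g hg, map_smul]⟩
  obtain ⟨a, ha, ha0⟩ := hpt
  have h5 := X.push P.X Y.X m r _ (X.mul _ P.X.dim m r _ (alg_map (fst P.X Y.X) ha) _ h4)
  rw [push_mul_sndL] at h5
  exact (Submodule.smul_mem_iff _ ha0).1 h5

end step

section tower

variable {ι : Type} {V : ι → GRep W.K Γ} {Z : GVar W Γ} {L : List (ι × GVar W Γ)} {Y : GVar W Γ}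
  {X : LogVar W Γ} {χ : Γ →* W.Kˣ} {t : ℤ}

theorem tower_log [IsAlgClosed W.K] {m : ℕ} {E : Set ι} {U : Fin m → GRep W.K Γ}
    (hU : ∀ i ∉ E, ∀ a, Spl (fl (V i)) {fl (U a)})
    (hX : ∀ i ∉ E, Spl (fl (V i)) {full X.M X.act})
    (hV : ∀ i ∉ E, ∀ j ∉ E, j ≠ i → Spl (fl (V i)) {fl (V j)})
    (hZ : GeneratedBy U Z) (hY : S.Tower V Z L Y) :
    (∀ x ∈ L, x.1 ∉ E ∧ LogFactor χ x.2) → (LogTate χ t Y X ↔ LogTate χ t Z X) := by
  induction hY with
  | base => exact fun _ => Iff.rfl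
  | @step L Y i P υ hT hi hP hυ ih =>
    intro hL
    have hL' := fun x hx => hL x (List.mem_cons_of_mem (i, P) hx)
    obtain ⟨hiE, hF⟩ := hL (i, P) List.mem_cons_self
    rw [← ih hL']
    refine ⟨convL hυ.2 hF.point,
      stepL (isGalois hF.galois) (homEqNum_of hF.num) hυ.1 hυ.2 fun z hz ψ => ?_⟩
    have h5 := slicesL hZ hT (i := i) (hU i hiE) (hX i hiE)
      (fun x hx => hV i hiE x.1 (hL' x hx).1 (hi x hx)) hP hυ.1 hυ.2 (z := z) hz ψ
    have h6 : ∀ y : W.H P.X, (full (W.H P.X) (algR P.act)).Eig y → y ∈ algSpan W P.X :=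
      fun y hy => hF.semi y hy
    exact (Submodule.span_le.2 fun y hy => h6 y hy) h5

end tower

/-- **The theorem.** -/
theorem final (hK : Nonempty (W.K ≃+* ℂ)) {ι : Type} (χ : Chr W.K Γ) (R : Set ℤ)
    {V : ι → GRep W.K Γ} (hV : Family V) :
    ∃ E : GRep W.K Γ → Set ι, LogSplitting χ R V E := by
  obtain ⟨e⟩ := hK
  have halg : IsAlgClosed W.K := IsAlgClosed.of_ringEquiv ℂ W.K e.symm
  refine ⟨Exc V, ⟨fun U => ⟨(exceptional e hV U).finite, (exceptional e hV U).card,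
    (exceptional e hV U).card_form⟩, fun j i hi => ?_, fun i U h hi => hi (SP.spl_of_elements (hV.semisimple i) h),
    fun m U Z X hZ t _ L Y hY hL => ?_⟩⟩
  · by_contra h
    exact hi (hV.pair h)
  · refine tower_log (U := U) (E := (⋃ a, Exc V (U a)) ∪ Exc V X.rep) (fun i hi a => ?_)
      (fun i hi => ?_) (fun i _ j _ hij => hV.pair hij.symm) hZ hY hL
    · by_contra h
      exact hi (Or.inl (Set.mem_iUnion.2 ⟨a, h⟩))
    · by_contra h
      exact hi (Or.inr h)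

end Pool.Agent.N179.LG
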